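import Pool.Agent.H17.CI.Defs

/-!
# MP_70ba79_ag: targets of the board `ci_modules`, part C (linear algebra)

Compare `Pool/Agent/H17/VG/TargetsC.lean`. `t` is the dimension of the variety, `t + Z.card = n`.
-/

set_option autoImplicit false

namespace Pool.Agent.H17.CI

open MvPolynomial SC Pool.Agent.H27.LV Pool.Agent.H17.VG

/-- CT: the lemma on steps, `B` need not be onto, its values span a space of dimension `t - 1` -/
def T_CT : Prop := ∀ (K V E N : Type) [Field K] [CharZero K] [AddCommGroup V] [Module K V]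
  [AddCommGroup E] [Module K E] [AddCommGroup N] [Module K N] [FiniteDimensional K V]
  [FiniteDimensional K N] (B : V →ₗ[K] E →ₗ[K] N) (t δ : ℕ),
  Module.finrank K (Submodule.span K {w | ∃ v q, w = B v q}) + 1 = t → t ≤ 2 * δ →
  (∀ φ : V →ₗ[K] K, φ ≠ 0 →
    t ≤ Module.finrank K (Submodule.span K {w | ∃ v q, φ v = 0 ∧ w = B v q}) + 1 + δ) →
  ∃ Q : Fin (δ - 1) → E, t ≤ Module.finrank K (im B Q) + 2

/-- BIT: the bilinear map `B`: `ξ` (linear form vanishing at `x`) and `q` (coefficients of a family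
of forms of degrees `e i`) go to the velocity of the operators with symbol `lin ξ * frmT q`,
modulo `x` and `D x`. -/
def T_BIT : Prop := ∀ (R K : Type) [Field R] [Field K] [CharZero K] [Algebra R K] (n : ℕ)
  (ι : Type) [Fintype ι] (e : ι → ℕ) (F : Tup ι K n) (D : Derivation R K K) (Z : Finset ι)
  (x : Fin (n + 1) → K), SysT e F D → Pt Z F D x →
  ∃ B : Vx x →ₗ[K] ((Σ i, Mon (n + 1) (e i)) → K) →ₗ[K]
      ((Fin (n + 1) → K) ⧸ Submodule.span K {x, fun i => D (x i)}),
    ∀ P : Set (Vx x × ((Σ i, Mon (n + 1) (e i)) → K)),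
      Module.finrank K (UtT R F x (Submodule.span K {G | ∃ p ∈ P, G = fun i =>
        lin p.1.1 * frmT p.2 i})) =
        Module.finrank K (Submodule.span K {w | ∃ p ∈ P, w = B p.1 p.2}) + 2

/-- TPT: the velocities of all operators whose symbol vanishes at `x` are the tangent vectors -/
def T_TPT : Prop := ∀ (R K : Type) [Field R] [Field K] [CharZero K] [Algebra R K] (n : ℕ)
  (ι : Type) [Fintype ι] (e : ι → ℕ) (F : Tup ι K n) (D : Derivation R K K) (Z : Finset ι)
  (x : Fin (n + 1) → K), SysT e F D → Pt Z F D x →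
  UtT R F x (Submodule.span K {G | ∃ (ξ : Fin (n + 1) → K) (q : (Σ i, Mon (n + 1) (e i)) → K),
    ∑ i, ξ i * x i = 0 ∧ G = fun i => lin ξ * frmT q i}) = TxT Z F x

/-- STT: the steps. `δ = ∑ (e i + 1) - n`. -/
def T_STT : Prop := ∀ (R k K : Type) [Field R] [Field k] [Field K] [CharZero k] [CharZero K]
  [Algebra k K] [Algebra R K] (n : ℕ) (ι : Type) [Fintype ι] (e : ι → ℕ) (F : Tup ι K n)
  (D : Derivation R K K) (Z : Finset ι) (x : Fin (n + 1) → K), Z.card < n →
  3 * n ≤ 2 * ∑ i, (e i + 1) + Z.card → SysT e F D → Pt Z F D x →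
  (∀ y : Fin (n + 1) → K, y 0 = 0 → y ≠ 0 → ¬ ExcL Z F x y) →
  ∃ Q : Fin (∑ i, (e i + 1) - n - 1) → (Σ i, Mon (n + 1) (e i)) → k,
    n ≤ Module.finrank K (UtT R F x (PQT x fun j => upT K (frmT (Q j)))) + Z.card

/-- SMT: one more step, with a monomial -/
def T_SMT : Prop := ∀ (R k K : Type) [Field R] [Field k] [Field K] [CharZero K]
  [Algebra k K] [Algebra R K] (n s : ℕ) (ι : Type) [Fintype ι] (e : ι → ℕ) (F : Tup ι K n)
  (D : Derivation R K K) (Z : Finset ι) (x : Fin (n + 1) → K), SysT e F D → Pt Z F D x →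
  ∀ Q : Fin s → (Σ i, Mon (n + 1) (e i)) → k,
  Module.finrank K (UtT R F x (PQT x fun j => upT K (frmT (Q j)))) + Z.card = n →
  ∃ Q' : (Σ i, Mon (n + 1) (e i)) → k, ∃ (ξ : Fin (n + 1) → K) (τ : Op R K n) (l : ι → K),
    ∑ i, ξ i * x i = 0 ∧ Sym F τ l (fun i => lin ξ * upT K (frmT Q') i) ∧
    opV τ x ∉ UtT R F x (PQT x fun j => upT K (frmT (Q j)))

end Pool.Agent.H17.CI
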