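import Pool.Agent.H17.CI.Defs

/-!
# MP_70ba79_ag: targets of the board `ci_modules`, part X (the exceptional set)
-/

set_option autoImplicit false

namespace Pool.Agent.H17.CI

open MvPolynomial SC Pool.Agent.H27.LV Pool.Agent.H17.VG

/-- XDD: derivations over the rational numbers with given values on the coefficients and zero on
some coordinates, algebraically independent over `k` -/
def T_XDD : Prop := ∀ (k L κ β : Type) [Field k] [CharZero k] [Field L] [Algebra k L]
  (c : κ → k) (x : β → L), AlgebraicIndependent ℚ c → AlgebraicIndependent k x →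
  ∀ g : κ → L, ∃ θ : Derivation ℤ L L, (∀ M, θ (algebraMap k L (c M)) = g M) ∧ ∀ b, θ (x b) = 0

/-- NZT: a point with at least `n - r` independent coordinates is on at most `r` of the
hypersurfaces. With `θ` of T_XDD: `G_i (x) + ∑_{a not in B} ∂_a F_i (x) θ x_a = 0` for `i` in `A`,
where the values `G_i (x)` are arbitrary. -/
def T_NZT : Prop := ∀ (k L : Type) [Field k] [CharZero k] [Field L] [Algebra k L] (n : ℕ)
  (ι : Type) [Fintype ι] (e : ι → ℕ) (c : (Σ i, Mon (n + 1) (e i + 1)) → k),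
  AlgebraicIndependent ℚ c → ∀ (x : Fin (n + 1) → L) (B : Finset (Fin n)), x 0 = 1 →
  AlgebraicIndependent k (fun b : B => x b.1.succ) → ∀ A : Finset ι,
  (∀ i ∈ A, eval x (upT L (frmT c) i) = 0) → A.card + B.card ≤ n

/-- XMT: no exceptional lines through general points: dimension count. With `θ` of T_XDD applied to
the identities of `ExcL`: for every family `G` the restrictions `G_i (x + T y)` are combinations of
`card Z` (`θ x_a`, `a` not in `B`) `+ n` (`θ y_a`, where the direction of `y` gives the same as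
`θ α`) `+ card (complement of Z)` (`θ F_i (x)`) families, but the space of the restrictions has
dimension `∑ (e i + 2)`. -/
def T_XMT : Prop := ∀ (k L : Type) [Field k] [CharZero k] [Field L] [Algebra k L] (n : ℕ)
  (ι : Type) [Fintype ι] (e : ι → ℕ) (Z : Finset ι)
  (c : (Σ i, Mon (n + 1) (e i + 1)) → k), n + 1 ≤ ∑ i, (e i + 1) →
  AlgebraicIndependent ℚ c → ∀ (x y : Fin (n + 1) → L) (B : Finset (Fin n)), x 0 = 1 →
  AlgebraicIndependent k (fun b : B => x b.1.succ) → B.card + Z.card = n → y 0 = 0 → y ≠ 0 →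
  ¬ ExcL Z (upT L (frmT c)) x y

/-- GPT: a generic point of the variety. Let the coefficients except those of `X 0 ^ (e i + 1)`,
`i` in `Z`, and the coordinates `x a` be independent variables, and choose the remaining
coefficients such that `F_i (x) = 0`. By the Jacobian criterion all the coefficients are
algebraically independent, so they can be identified with the given ones; then extend the
embedding to the coordinates. -/
def T_GPT : Prop := ∀ (k : Type) [Field k] [CharZero k] (n : ℕ) (ι : Type) [Fintype ι]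
  (e : ι → ℕ) (Z : Finset ι) (c : (Σ i, Mon (n + 1) (e i + 1)) → k), Z.card ≤ n →
  AlgebraicIndependent ℚ c → ∃ (Ω : Type) (_ : Field Ω) (_ : Algebra k Ω)
    (x : Fin (n + 1) → Ω) (B : Finset (Fin n)), x 0 = 1 ∧ B.card + Z.card = n ∧
    AlgebraicIndependent k (fun b : B => x b.1.succ) ∧
    ∀ i ∈ Z, eval x (upT Ω (frmT c) i) = 0

/-- JCR: Jacobian criterion: if for all prescribed values there is a derivation then the elements
are algebraically independent -/
def T_JCR : Prop := ∀ (L κ : Type) [Field L] [CharZero L] [Finite κ] (c : κ → L),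
  (∀ g : κ → L, ∃ θ : Derivation ℤ L L, ∀ M, θ (c M) = g M) → AlgebraicIndependent ℚ c

/-- XEL: elimination relative to a point `x0` -/
def T_XEL : Prop := ∀ (k : Type) [Field k] (σ τ : Type) (I : Set (MvPolynomial (σ ⊕ τ) k))
  (Ω0 : Type) [Field Ω0] [Algebra k Ω0] (x0 : σ → Ω0),
  (∃ Φ : MvPolynomial σ k, aeval x0 Φ ≠ 0 ∧ rename Sum.inl Φ ∈ Ideal.span I) ∨
  ∃ (Ω : Type) (_ : Field Ω) (_ : Algebra k Ω) (x : σ → Ω) (y : τ → Ω),
    (∀ f ∈ I, aeval (Sum.elim x y) f = 0) ∧
    ∀ Φ : MvPolynomial σ k, aeval x Φ = 0 → aeval x0 Φ = 0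

/-- XPO: the exceptional lines with `y q = 1` and exponents `a` are given by polynomial equations in
`x`, `y`, `α` -/
def T_XPO : Prop := ∀ (k : Type) [Field k] (n : ℕ) (ι : Type) [Fintype ι] (F : Tup ι k n)
  (Z : Finset ι) (q : Fin n) (a : ι → ℕ),
  ∃ I : Set (MvPolynomial (Fin n ⊕ (Fin n ⊕ Unit)) k), ∀ (K : Type) [Field K] [Algebra k K]
    (x y : Fin n → K) (α : K), (∀ f ∈ I, aeval (Sum.elim x (Sum.elim y fun _ => α)) f = 0) ↔
      y q = 1 ∧ (∀ i ∈ Z, res (Fin.cons 1 x : Fin (n + 1) → K) (Fin.cons 0 y) (upT K F i) = 0) ∧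
      ∀ i, i ∉ Z → res (Fin.cons 1 x : Fin (n + 1) → K) (Fin.cons 0 y) (upT K F i) =
        Polynomial.C (eval (Fin.cons 1 x : Fin (n + 1) → K) (upT K F i)) *
          (1 + Polynomial.C α * Polynomial.X) ^ a i

/-- NST: Nullstellensatz: points over `k` -/
def T_NST : Prop := ∀ (k : Type) [Field k] [IsAlgClosed k] (n : ℕ) (Ω : Type) [Field Ω]
  [Algebra k Ω] (x0 : Fin n → Ω) (E : Set (MvPolynomial (Fin n) k)) (g : MvPolynomial (Fin n) k),
  (∀ f ∈ E, aeval x0 f = 0) → aeval x0 g ≠ 0 →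
  ∃ x : Fin n → k, (∀ f ∈ E, eval x f = 0) ∧ eval x g ≠ 0

/-- XFT: the exceptional lines do not cover the variety. The exponents are at most `e i + 1`;
`Ψ` is the product of the polynomials of T_XEL for the point of T_GPT. -/
def T_XFT : Prop := ∀ (k : Type) [Field k] [IsAlgClosed k] [CharZero k] (n : ℕ) (ι : Type)
  [Fintype ι] (e : ι → ℕ) (Z : Finset ι) (c : (Σ i, Mon (n + 1) (e i + 1)) → k), Z.card ≤ n →
  n + 1 ≤ ∑ i, (e i + 1) → AlgebraicIndependent ℚ c → ∃ Ψ : MvPolynomial (Fin n) k,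
  (∃ x : Fin n → k, (∀ i, eval (Fin.cons 1 x : Fin (n + 1) → k) (frmT c i) = 0 ↔ i ∈ Z) ∧
    eval x Ψ ≠ 0) ∧
  ∀ (K : Type) [Field K] [Algebra k K] (x y : Fin (n + 1) → K), x 0 = 1 → y 0 = 0 → y ≠ 0 →
    (∀ i, eval x (upT K (frmT c) i) = 0 ↔ i ∈ Z) → ExcL Z (upT K (frmT c)) x y →
    aeval (fun a : Fin n => x a.succ) Ψ = 0

end Pool.Agent.H17.CI
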