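import Pool.Agent.H17.CI.Defs

/-!
# MP_70ba79_ag: targets of the board `ci_modules`, part G (generic families)

Compare `Pool/Agent/H17/VG/TargetsG.lean`.
-/

set_option autoImplicit false

namespace Pool.Agent.H17.CI

open MvPolynomial SC Pool.Agent.H27.LV Pool.Agent.H17.VG

/-- NC: a generic family has normal crossings (also with the hyperplane at infinity). Let
`∑ λ_i ∂_a F_i (z) = 0` for `a ≥ 1` (if `z 0 ≠ 0` then also for `a = 0`, by Euler), `F_i (z) = 0`.
Apply a derivation with `∂ c = g`, contract with `z`, use `G_i (z) + ∑ ∂_l F_i (z) ∂ z_l = 0`: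
`∑ λ_i G_i (z) = 0`; take `G` with one component a power of a coordinate. -/
def T_NC : Prop := ∀ (k : Type) [Field k] [CharZero k] (n : ℕ) (ι : Type) [Fintype ι]
  (e : ι → ℕ) (c : (Σ i, Mon (n + 1) (e i + 1)) → k), AlgebraicIndependent ℚ c → NCr (frmT c)

/-- HA: products of linear forms have no infinitesimal automorphisms. Some family of forms over
the rational numbers of degrees `e i + 1` has no operator with symbol zero, if
`n + 1 ≤ ∑ (e i + 1)`: products of the different linear forms `X 1, …, X n, X 0 + ∑ X q`,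
`X 1 + m X 0` (`m ≥ 2`). -/
def T_HA : Prop := ∀ (n : ℕ) (ι : Type) [Fintype ι] (e : ι → ℕ), n + 1 ≤ ∑ i, (e i + 1) →
  ∃ c : (Σ i, Mon (n + 1) (e i + 1)) → ℚ, ∀ (A : Matrix (Fin (n + 1)) (Fin (n + 1)) ℚ)
    (l : ι → ℚ), (∀ j, A 0 j = 0) → (∀ i, ∑ a, (∑ b, C (A a b) * X b) * pderiv a (frmT c i) +
      C (l i) * frmT c i = 0) → A = 0 ∧ l = 0

/-- FET: the same for a generic family (some maximal minor of the matrix of this linear map is not
zero for the family of T_HA, so it is a nonzero polynomial in the coefficients `c`) -/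
def T_FET : Prop := ∀ (k : Type) [Field k] [CharZero k] (n : ℕ) (ι : Type) [Fintype ι]
  (e : ι → ℕ) (c : (Σ i, Mon (n + 1) (e i + 1)) → k), n + 1 ≤ ∑ i, (e i + 1) →
  AlgebraicIndependent ℚ c → ∀ (A : Matrix (Fin (n + 1)) (Fin (n + 1)) k)
    (l : ι → k), (∀ j, A 0 j = 0) → (∀ i, ∑ a, (∑ b, C (A a b) * X b) * pderiv a (frmT c i) +
      C (l i) * frmT c i = 0) → A = 0 ∧ l = 0

/-- BST: unique decomposition of a family of forms over all extensions `K` of `k`; `P` is a set of
monomials which form a basis of the space of families modulo the symbols of matrices and scalings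
(linear algebra over `k`) -/
def T_BST : Prop := ∀ (k : Type) [Field k] [CharZero k] (n : ℕ) (ι : Type) [Fintype ι]
  (e : ι → ℕ) (c : (Σ i, Mon (n + 1) (e i + 1)) → k),
  (∀ (A : Matrix (Fin (n + 1)) (Fin (n + 1)) k) (l : ι → k), (∀ j, A 0 j = 0) →
    (∀ i, ∑ a, (∑ b, C (A a b) * X b) * pderiv a (frmT c i) + C (l i) * frmT c i = 0) →
    A = 0 ∧ l = 0) →
  ∃ P : (Σ i, Mon (n + 1) (e i + 1)) → Prop, ∀ (K : Type) [Field K] [Algebra k K],
  (∀ G : Tup ι K n, (∀ i, (G i).IsHomogeneous (e i + 1)) →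
    ∃ (g : (Σ i, Mon (n + 1) (e i + 1)) → K) (A : Matrix (Fin (n + 1)) (Fin (n + 1)) K)
      (l : ι → K), (∀ M, ¬ P M → g M = 0) ∧ (∀ j, A 0 j = 0) ∧ ∀ i,
      G i = frmT g i + ∑ a, (∑ b, C (A a b) * X b) * pderiv a (upT K (frmT c) i) +
        C (l i) * upT K (frmT c) i) ∧
  ∀ (g : (Σ i, Mon (n + 1) (e i + 1)) → K) (A : Matrix (Fin (n + 1)) (Fin (n + 1)) K)
    (l : ι → K), (∀ M, ¬ P M → g M = 0) → (∀ j, A 0 j = 0) →
    (∀ i, frmT g i + ∑ a, (∑ b, C (A a b) * X b) * pderiv a (upT K (frmT c) i) +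
      C (l i) * upT K (frmT c) i = 0) → g = 0 ∧ A = 0 ∧ l = 0

/-- FDT: the small field `R` (VG row FD for any index set) -/
def T_FDT : Prop := ∀ (k : Type) [Field k] [CharZero k] (κ : Type) (c : κ → k),
  AlgebraicIndependent ℚ c → ∀ P : κ → Prop, ∃ R : IntermediateField ℚ k, (∀ M, ¬ P M → c M ∈ R) ∧
    AlgebraicIndependent R (fun M : {M : κ // P M} => c M) ∧
    Algebra.IsAlgebraic (IntermediateField.adjoin R
      (Set.range fun M : {M : κ // P M} => c M)) k

/-- DXT: derivations with given values (VG row DX for any index set) -/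
def T_DXT : Prop := ∀ (k : Type) [Field k] [IsAlgClosed k] [CharZero k] (κ : Type)
  (c : κ → k) (P : κ → Prop) (R : IntermediateField ℚ k),
  AlgebraicIndependent R (fun M : {M : κ // P M} => c M) →
  Algebra.IsAlgebraic (IntermediateField.adjoin R
      (Set.range fun M : {M : κ // P M} => c M)) k →
  ∀ (K : Type) [Field K] [Algebra k K] [Algebra.EssFiniteType k K], Algebra.trdeg k K = 1 →
  ∀ g : {M : κ // P M} → k, ∃ θ : Derivation R K K, PresK k θ ∧
    ∀ M, θ (algebraMap k K (c M.1)) = algebraMap k K (g M)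

/-- KDT: derivations which vanish on the coefficients are multiples of `D` (VG row KD for any
index set) -/
def T_KDT : Prop := ∀ (k : Type) [Field k] [IsAlgClosed k] [CharZero k] (κ : Type)
  (c : κ → k) (P : κ → Prop) (R : IntermediateField ℚ k),
  Algebra.IsAlgebraic (IntermediateField.adjoin R
      (Set.range fun M : {M : κ // P M} => c M)) k →
  ∀ (K : Type) [Field K] [Algebra k K] [Algebra.EssFiniteType k K], Algebra.trdeg k K = 1 →
  ∀ (D : Derivation k K K) (D' θ : Derivation R K K), D ≠ 0 → (∀ z, D' z = D z) →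
  (∀ M : {M : κ // P M}, θ (algebraMap k K (c M.1)) = 0) → ∃ a : K, θ = a • D'

/-- GT: the system of a generic family -/
def T_GT : Prop := ∀ (k : Type) [Field k] [IsAlgClosed k] [CharZero k] (n : ℕ) (ι : Type)
  [Fintype ι] (e : ι → ℕ) (c : (Σ i, Mon (n + 1) (e i + 1)) → k), n + 1 ≤ ∑ i, (e i + 1) →
  AlgebraicIndependent ℚ c →
  ∃ R : IntermediateField ℚ k, ∀ (K : Type) [Field K] [Algebra k K] [Algebra.EssFiniteType k K],
  Algebra.trdeg k K = 1 → ∀ D : Derivation k K K, D ≠ 0 →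
  ∃ D' : Derivation R K K, (∀ z, D' z = D z) ∧ SysT e (upT K (frmT c)) D' ∧
    ∀ G : Tup ι k n, (∀ i, (G i).IsHomogeneous (e i + 1)) →
      ∃ (τ : Op R K n) (l : ι → K), RatT k τ l ∧ Sym (upT K (frmT c)) τ l (upT K G)

end Pool.Agent.H17.CI
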