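import Pool.Agent.H17.CI.Defs

/-!
# MP_70ba79_ag: targets of the board `ci_modules`, part D (height inequality)

Compare `Pool/Agent/H17/VG/TargetsD.lean`. The operators have symbols `X_(i c) Q_(j c)`; on the
variety `∑_a ∂_a F_i (x) * (column) + ∑_b Q_b,i (x) * (column)` is `0` for `i` in `Z`, and it is a
logarithmic derivative of `F_i (x)` times `F_i (x)` for the other `i`.
-/

set_option autoImplicit false

namespace Pool.Agent.H17.CI

open MvPolynomial SC Pool.Agent.H27.LV Pool.Agent.H17.VG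

/-- GRT: at each place there is a set `A` of indices (those of the forms which vanish at the
reduction of `x`) such that a minor of the gradients has the exact order, and the forms not in `A`
do not vanish -/
def T_GRT : Prop := ∀ (k K : Type) [Field k] [IsAlgClosed k] [CharZero k] [Field K] [Algebra k K]
  [Algebra.EssFiniteType k K], Algebra.trdeg k K = 1 → ∀ (n : ℕ) (ι : Type) [Fintype ι]
  (e : ι → ℕ) (F : Tup ι k n), (∀ i, (F i).IsHomogeneous (e i + 1)) → NCr F →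
  ∀ (x : Fin (n + 1) → K), x 0 = 1 → ∀ v : DV k K,
  (∀ i a, ge v (-(e i * poleOrder v x)) (eval x (pderiv a (upT K F i)))) ∧
  ∃ (A : Finset ι) (J : A → Fin n), Function.Injective J ∧ gJ (upT K F) x J ≠ 0 ∧
    v.ord (gJ (upT K F) x J) = -((∑ i ∈ A, e i : ℕ) * poleOrder v x) ∧
    ∀ i, i ∉ A → eval x (upT K F i) ≠ 0 ∧
      v.ord (eval x (upT K F i)) = -((e i + 1 : ℕ) * poleOrder v x)

/-- ROW: the combinations of the rows: for each `c` a local lift (column operation with the column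
`D x`) makes the entries of the column integral, and the combination with the gradient of `F i` is
as small as `F i (x)`. Here `θ = (τ c).1 - (τ c).1 (unif) / D (unif) • D` is the local lift. -/
def T_ROW : Prop := ∀ (R k K : Type) [Field R] [Field k] [IsAlgClosed k] [CharZero k] [Field K]
  [Algebra k K] [Algebra R K] [Algebra.EssFiniteType k K], Algebra.trdeg k K = 1 →
  ∀ (n s : ℕ) (ι : Type) [Fintype ι] (e : ι → ℕ) (F : Tup ι k n),
  (∀ i, (F i).IsHomogeneous (e i + 1)) → ∀ (D : Derivation k K K), D ≠ 0 →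
  ∀ (x : Fin (n + 1) → K), x 0 = 1 → ∀ (Q : Fin s → Tup ι k n) (τ : Op R K n) (l : ι → K)
    (p : Fin (n + 1)) (j : Fin s), RatT k τ l →
  Sym (upT K F) τ l (fun i => X p * upT K (Q j) i) → ∀ v : DV k K,
  ge v (-(poleOrder v x)) (x p) ∧
  (∀ a : Fin n, ge v (-(poleOrder v x))
    (opV τ x a.succ - τ.1 v.unif / D v.unif * D (x a.succ))) ∧
  (∀ a : Fin n, ge v (-(poleOrder v x) - 1 + ordD v D) (D (x a.succ))) ∧
  (poleOrder v x = 0 → ∀ a : Fin n, ge v (ordD v D) (D (x a.succ))) ∧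
  ∀ i,
    (∑ a : Fin n, eval x (pderiv a.succ (upT K F i)) *
        (opV τ x a.succ - τ.1 v.unif / D v.unif * D (x a.succ)) +
      eval x (upT K (Q j) i) * x p = (τ.1 (eval x (upT K F i)) -
        τ.1 v.unif / D v.unif * D (eval x (upT K F i))) + l i * eval x (upT K F i)) ∧
    (∑ a : Fin n, eval x (pderiv a.succ (upT K F i)) * D (x a.succ) =
      D (eval x (upT K F i))) ∧
    (eval x (upT K F i) ≠ 0 → ge v (v.ord (eval x (upT K F i)))
      ((τ.1 (eval x (upT K F i)) - τ.1 v.unif / D v.unif * D (eval x (upT K F i))) +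
        l i * eval x (upT K F i)) ∧
      ge v (v.ord (eval x (upT K F i)) - 1 + ordD v D) (D (eval x (upT K F i))))

/-- DET: a determinant with known combinations of rows. `M` has the columns `κ` (order at least
`m c r` in the row `r`...), `Unit` (one special column, `-1 + ω` more) and for each `i` in `Z` the
unit vector of the row `J i`. `g i`, `i` in `A`, are row vectors; the combination `g i` of the rows
is zero on the first columns for `i` in `Z`, and of order at least `u i` for the other `i`. The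
minor of the `g i` with the rows `J' i` has order exactly `γ`, all entries in the rows have order
at least `-p`. -/
def T_DET : Prop := ∀ (k K : Type) [Field k] [Field K] [Algebra k K] (v : DV k K)
  (ρ κ ι : Type) [Fintype ρ] [DecidableEq ρ] [Fintype κ] [DecidableEq κ] [DecidableEq ι]
  (Z A : Finset ι) (M : Matrix ρ (κ ⊕ Unit) K) (J : Z → ρ) (J' : A → ρ) (g : ι → ρ → K)
  (e0 : (κ ⊕ Unit) ⊕ Z ≃ ρ) (p : ℕ) (ω : ℤ) (u : ι → ℤ) (γ : ℤ), Z ⊆ A →
  Function.Injective J → Function.Injective J' →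
  (Matrix.of fun i i' : A => g i (J' i')).det ≠ 0 →
  v.ord (Matrix.of fun i i' : A => g i (J' i')).det = γ →
  (Matrix.of fun i i' : Z => g i (J i')).det ≠ 0 →
  (∀ r c, ge v (-p) (M r (Sum.inl c))) → (∀ r, ge v (-p + ω) (M r (Sum.inr ()))) →
  (∀ i ∈ Z, ∀ c, ∑ r, g i r * M r c = 0) →
  (∀ i ∈ A, i ∉ Z → (∀ c, ge v (u i) (∑ r, g i r * M r (Sum.inl c))) ∧
    ge v (u i + ω) (∑ r, g i r * M r (Sum.inr ()))) →
  ge v (v.ord (Matrix.of fun i i' : Z => g i (J i')).det - γ + ω +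
    ∑ i ∈ A \ Z, u i - ((Fintype.card ρ : ℤ) - A.card) * p)
    ((Matrix.of fun (r : ρ) (c : (κ ⊕ Unit) ⊕ Z) => Sum.elim (fun c => M r c)
      (fun z => if J z = r then (1 : K) else 0) c).submatrix e0 id).det

/-- DBT: the estimate of the determinant, at all places -/
def T_DBT : Prop := ∀ (R k K : Type) [Field R] [Field k] [IsAlgClosed k] [CharZero k] [Field K]
  [Algebra k K] [Algebra R K] [Algebra.EssFiniteType k K], Algebra.trdeg k K = 1 →
  ∀ (n s : ℕ) (ι : Type) [Fintype ι] [DecidableEq ι] (e : ι → ℕ) (F : Tup ι k n),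
  (∀ i, (F i).IsHomogeneous (e i + 1)) → NCr F → ∀ (D : Derivation k K K), D ≠ 0 →
  ∀ (Z : Finset ι) (x : Fin (n + 1) → K), x 0 = 1 → (∀ i, eval x (upT K F i) = 0 ↔ i ∈ Z) →
  ∀ (Q : Fin s → Tup ι k n) (κ : Type) [Fintype κ] [DecidableEq κ] (τ : κ → Op R K n)
    (l : κ → ι → K) (i : κ → Fin (n + 1)) (j : κ → Fin s) (J : Z → Fin n)
    (e0 : (κ ⊕ Unit) ⊕ Z ≃ Fin n ⊕ Fin s), (∀ c, RatT k (τ c) (l c)) →
  (∀ c, Sym (upT K F) (τ c) (l c) (fun a => X (i c) * upT K (Q (j c)) a)) →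
  Function.Injective J → gJ (upT K F) x J ≠ 0 → ∀ v : DV k K,
  ge v (v.ord (gJ (upT K F) x J) + ∑ a ∈ Finset.univ \ Z, v.ord (eval x (upT K F a)) +
      ((∑ a, (e a + 1) : ℕ) - Z.card : ℤ) * poleOrder v x - ((n : ℤ) + s - Z.card) *
        poleOrder v x - 1 + ordD v D)
    ((bigA D x τ i j J).submatrix e0 id).det ∧
  (poleOrder v x = 0 → (∀ a, a ∉ Z → v.ord (eval x (upT K F a)) = 0) →
    ge v (v.ord (gJ (upT K F) x J) + ordD v D) ((bigA D x τ i j J).submatrix e0 id).det)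

/-- SU3: summation over all places -/
def T_SU3 : Prop := ∀ (k K : Type) [Field k] [IsAlgClosed k] [CharZero k] [Field K] [Algebra k K]
  [Algebra.EssFiniteType k K], Algebra.trdeg k K = 1 → ∀ (n : ℕ) (N d : ℤ) (D : Derivation k K K),
  D ≠ 0 → ∀ (x : Fin (n + 1) → K) (u : K), u ≠ 0 → ∀ S : Finset (DV k K),
  (∀ v, v ∉ S → v.ord u = 0 ∧ poleOrder v x = 0) → ∀ (κ : Type) [Fintype κ] (P : κ → K) (c0 : κ),
  P c0 ≠ 0 → (∀ (v : DV k K) c, v ∉ S → ge v (ordD v D) (P c)) →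
  (∀ (v : DV k K) c, ge v (v.ord u + d * poleOrder v x - N * poleOrder v x - 1 + ordD v D)
    (P c)) →
  (deg k (fun c => P c / P c0) : ℤ) + (d - N) * deg k x ≤ canDeg D + S.card

/-- NAT: choice of columns, first case -/
def T_NAT : Prop := ∀ (R k K : Type) [Field R] [Field k] [Field K] [CharZero K]
  [Algebra k K] [Algebra R K] (n s : ℕ) (ι : Type) [Fintype ι] [DecidableEq ι] (e : ι → ℕ) (F : Tup ι K n)
  (D : Derivation k K K) (D' : Derivation R K K) (Z : Finset ι) (x : Fin (n + 1) → K),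
  SysT e F D' → (∀ z, D' z = D z) → Pt Z F D' x →
  ∀ (Q : Fin s → Tup ι K n) (τ : Fin (n + 1) → Fin s → Op R K n)
    (l : Fin (n + 1) → Fin s → ι → K), (∀ i j, Sym F (τ i j) (l i j) (fun a => X i * Q j a)) →
  Module.finrank K (UtT R F x (PQT x Q)) + Z.card = n + 1 →
  ∀ J : Z → Fin n, gJ F x J ≠ 0 →
  ∃ (T : Finset (Fin (n + 1) × Fin s)) (e0 : (T ⊕ Unit) ⊕ Z ≃ Fin n ⊕ Fin s),
    ((bigA D x (fun c : T => τ c.1.1 c.1.2) (fun c => c.1.1) (fun c => c.1.2) J).submatrix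
      e0 id).det ≠ 0

/-- NBT: choice of columns, second case: one more family `Q s`, with two columns `a`, `b` -/
def T_NBT : Prop := ∀ (R k K : Type) [Field R] [Field k] [Field K] [CharZero K]
  [Algebra k K] [Algebra R K] (n s : ℕ) (ι : Type) [Fintype ι] [DecidableEq ι] (e : ι → ℕ) (F : Tup ι K n)
  (D : Derivation k K K) (D' : Derivation R K K) (Z : Finset ι) (x : Fin (n + 1) → K),
  SysT e F D' → (∀ z, D' z = D z) → Pt Z F D' x →
  ∀ (Q : Fin (s + 1) → Tup ι K n) (τ : Fin (n + 1) → Fin (s + 1) → Op R K n)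
    (l : Fin (n + 1) → Fin (s + 1) → ι → K),
  (∀ i j, Sym F (τ i j) (l i j) (fun a => X i * Q j a)) →
  Module.finrank K (UtT R F x (PQT x fun j : Fin s => Q j.castSucc)) + Z.card = n →
  (∃ ξ : Fin (n + 1) → K, ∑ i, ξ i * x i = 0 ∧
    ∑ i, ξ i • opV (τ i (Fin.last s)) x ∉ UtT R F x (PQT x fun j : Fin s => Q j.castSucc)) →
  ∀ J : Z → Fin n, gJ F x J ≠ 0 →
  ∃ (T : Finset (Fin (n + 1) × Fin s))
    (e0 : ((T ⊕ Fin 2) ⊕ Unit) ⊕ Z ≃ Fin n ⊕ Fin (s + 1)) (y : Fin (n + 1) → K) (σ : K),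
    y 0 = 0 ∧ y ≠ 0 ∧ σ ≠ 0 ∧ ∀ a b : Fin (n + 1),
    ((bigA D x (Sum.elim (fun c : T => τ c.1.1 c.1.2.castSucc)
        (fun t : Fin 2 => τ (if t = 0 then a else b) (Fin.last s)))
      (Sum.elim (fun c => c.1.1) (fun t : Fin 2 => if t = 0 then a else b))
      (Sum.elim (fun c => c.1.2.castSucc) (fun _ => Fin.last s)) J).submatrix e0 id).det =
      σ * (x a * y b - x b * y a)

/-- DT: the height inequality. `δ = ∑ (e i + 1) - n`. -/
def T_DT : Prop := ∀ (R k K : Type) [Field R] [Field k] [IsAlgClosed k] [CharZero k] [Field K]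
  [Algebra k K] [Algebra R K] [Algebra.EssFiniteType k K], Algebra.trdeg k K = 1 →
  ∀ (n s : ℕ) (ι : Type) [Fintype ι] (e : ι → ℕ) (F : Tup ι k n),
  (∀ i, (F i).IsHomogeneous (e i + 1)) → NCr F →
  ∀ (D : Derivation k K K) (D' : Derivation R K K), D ≠ 0 → (∀ z, D' z = D z) →
  SysT e (upT K F) D' →
  (∀ G : Tup ι k n, (∀ i, (G i).IsHomogeneous (e i + 1)) →
    ∃ (τ : Op R K n) (l : ι → K), RatT k τ l ∧ Sym (upT K F) τ l (upT K G)) →
  ∀ (Z : Finset ι) (x : Fin (n + 1) → K), Pt Z (upT K F) D' x → ∀ S : Finset (DV k K),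
  (∀ v, v ∉ S → poleOrder v x = 0 ∧ ∀ i, i ∉ Z → v.ord (eval x (upT K F i)) = 0) →
  ∀ Q : Fin s → (Σ i, Mon (n + 1) (e i)) → k,
  (Module.finrank K (UtT R (upT K F) x (PQT x fun j => upT K (frmT (Q j)))) + Z.card = n + 1 →
    (((∑ i, (e i + 1) : ℕ) : ℤ) - n - s) * deg k x ≤ canDeg D + S.card) ∧
  (Module.finrank K (UtT R (upT K F) x (PQT x fun j => upT K (frmT (Q j)))) + Z.card = n →
    ∀ (Q' : (Σ i, Mon (n + 1) (e i)) → k) (ξ : Fin (n + 1) → K) (τ : Op R K n) (l : ι → K),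
    ∑ i, ξ i * x i = 0 → Sym (upT K F) τ l (fun i => lin ξ * upT K (frmT Q') i) →
    opV τ x ∉ UtT R (upT K F) x (PQT x fun j => upT K (frmT (Q j))) →
    ∃ (y : Fin (n + 1) → K) (a b : Fin (n + 1)), y 0 = 0 ∧ y ≠ 0 ∧ x a * y b - x b * y a ≠ 0 ∧
      (hln k x y a b : ℤ) + (((∑ i, (e i + 1) : ℕ) : ℤ) - n - (s + 1)) * deg k x ≤
        canDeg D + S.card)

end Pool.Agent.H17.CI
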