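import Pool.Agent.H17.CI.Defs

/-!
# MP_70ba79_ag: targets of the board `ci_modules`, part F (main theorem)
-/

set_option autoImplicit false

namespace Pool.Agent.H17.CI

open MvPolynomial SC Pool.Agent.H27.LV Pool.Agent.H17.VG

/-- ALT: the alternative: bounded height, or a line of small height -/
def T_ALT : Prop := ∀ (k : Type) [Field k] [IsAlgClosed k] [CharZero k] (n : ℕ) (ι : Type)
  [Fintype ι] (e : ι → ℕ) (Z : Finset ι) (c : (Σ i, Mon (n + 1) (e i + 1)) → k), Z.card < n →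
  3 * n ≤ 2 * ∑ i, (e i + 1) + Z.card → AlgebraicIndependent ℚ c →
  ∀ (K : Type) [Field K] [Algebra k K] [Algebra.EssFiniteType k K], Algebra.trdeg k K = 1 →
  ∀ (D : Derivation k K K), D ≠ 0 → ∀ x : Fin (n + 1) → K, x 0 = 1 →
  (∃ j, x j ∉ Set.range (algebraMap k K)) → (∀ i, eval x (upT K (frmT c) i) = 0 ↔ i ∈ Z) →
  (∀ y : Fin (n + 1) → K, y 0 = 0 → y ≠ 0 → ¬ ExcL Z (upT K (frmT c)) x y) →
  ∀ S : Finset (DV k K),
  (∀ v, v ∉ S → poleOrder v x = 0 ∧ ∀ i, i ∉ Z → v.ord (eval x (upT K (frmT c) i)) = 0) →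
  (deg k x : ℤ) ≤ canDeg D + S.card ∨
  ∃ (y : Fin (n + 1) → K) (a b : Fin (n + 1)), y 0 = 0 ∧ y ≠ 0 ∧ x a * y b - x b * y a ≠ 0 ∧
    (hln k x y a b : ℤ) ≤ canDeg D + S.card

/-- ROT: points of a line of small height which are zeros of a form -/
def T_ROT : Prop := ∀ n d : ℕ, ∃ C : ℕ, ∀ (k K : Type) [Field k] [IsAlgClosed k] [CharZero k]
  [Field K] [Algebra k K] [Algebra.EssFiniteType k K], Algebra.trdeg k K = 1 →
  ∀ (F : MvPolynomial (Fin (n + 1)) k), F.IsHomogeneous d →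
  ∀ (x y : Fin (n + 1) → K) (a b : Fin (n + 1)), x 0 = 1 → y 0 = 0 → y ≠ 0 →
  x a * y b - x b * y a ≠ 0 → eval x (up K F) = 0 → res x y (up K F) ≠ 0 →
  (deg k x : ℤ) ≤ C * hln k x y a b

/-- TRT: a line which is not exceptional: some equation of the variety is not zero on it, or the
boundary meets it in at least three points -/
def T_TRT : Prop := ∀ (K : Type) [Field K] [CharZero K] (n : ℕ) (ι : Type) [Fintype ι]
  [DecidableEq ι] (e : ι → ℕ) (Z : Finset ι) (F : Tup ι K n) (x y : Fin (n + 1) → K),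
  (∀ i, (F i).IsHomogeneous (e i + 1)) → x 0 = 1 → y 0 = 0 → y ≠ 0 →
  (∀ i, eval x (F i) = 0 ↔ i ∈ Z) → ¬ ExcL Z F x y →
  (∃ i ∈ Z, res x y (F i) ≠ 0) ∨
  ¬ TwoRoots (1 + ∑ i ∈ Finset.univ \ Z, (e i + 1)) (X 0 * ∏ i ∈ Finset.univ \ Z, F i) x y

/-- MNT: the main theorem, in homogeneous coordinates -/
def T_MNT : Prop := ∀ (n : ℕ) (ι : Type) [Fintype ι] (e : ι → ℕ) (Z : Finset ι), Z.card < n →
  3 * n ≤ 2 * ∑ i, (e i + 1) + Z.card → ∃ C : ℕ, ∀ (k : Type) [Field k]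
  [IsAlgClosed k] [CharZero k] (c : (Σ i, Mon (n + 1) (e i + 1)) → k),
  AlgebraicIndependent ℚ c → ∀ (K : Type) [Field K] [Algebra k K] [Algebra.EssFiniteType k K],
  Algebra.trdeg k K = 1 → ∀ (D : Derivation k K K), D ≠ 0 → ∀ x : Fin (n + 1) → K, x 0 = 1 →
  (∃ j, x j ∉ Set.range (algebraMap k K)) → (∀ i, eval x (upT K (frmT c) i) = 0 ↔ i ∈ Z) →
  (∀ y : Fin (n + 1) → K, y 0 = 0 → y ≠ 0 → ¬ ExcL Z (upT K (frmT c)) x y) →
  ∀ S : Finset (DV k K),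
  (∀ v, v ∉ S → poleOrder v x = 0 ∧ ∀ i, i ∉ Z → v.ord (eval x (upT K (frmT c) i)) = 0) →
  (deg k x : ℤ) ≤ C * (canDeg D + S.card)

/-- the polynomial `f_i (x_1, …, x_n) = F_i (1, x_1, …, x_n)` -/
noncomputable def deh {k : Type} [Field k] {n : ℕ} (F : MvPolynomial (Fin (n + 1)) k) :
    MvPolynomial (Fin n) k := aeval (Fin.cons 1 X : Fin (n + 1) → MvPolynomial (Fin n) k) F

/-- equations of the affine variety `X`: `f_i = 0` for `i` in `Z`, `f_i u_i = 1` for the other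
`i` -/
noncomputable def eqsC {k : Type} [Field k] {n : ℕ} {ι : Type} {e : ι → ℕ} (Z : Finset ι)
    (c : (Σ i, Mon (n + 1) (e i + 1)) → k) : Set (MvPolynomial (Fin n ⊕ {i // i ∉ Z}) k) :=
  {g | (∃ i ∈ Z, g = rename Sum.inl (deh (frmT c i))) ∨
    ∃ i : {i // i ∉ Z}, g = rename Sum.inl (deh (frmT c i.1)) * X (Sum.inr i) - 1}

/-- the point `(x, u)` of `X` lies on an exceptional line: for some direction `y ≠ 0`
`f_i (x + T y) = 0` for `i` in `Z` and `f_i (x + T y) = f_i (x) (1 + α T) ^ (a i)` for the other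
`i` -/
def excC {k : Type} [Field k] {n : ℕ} {ι : Type} {e : ι → ℕ} (Z : Finset ι)
    (c : (Σ i, Mon (n + 1) (e i + 1)) → k) (K : Type) [Field K] [Algebra k K]
    (z : Fin n ⊕ {i // i ∉ Z} → K) : Prop :=
  ∃ y : Fin n → K, y ≠ 0 ∧ ExcL Z (upT K (frmT c)) (Fin.cons 1 fun a => z (Sum.inl a))
    (Fin.cons 0 y)

/-- PTT: points of `X` -/
def T_PTT : Prop := ∀ (k K : Type) [Field k] [Field K] [Algebra k K] (n : ℕ) (ι : Type)
  (e : ι → ℕ) (Z : Finset ι) (c : (Σ i, Mon (n + 1) (e i + 1)) → k)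
  (z : Fin n ⊕ {i // i ∉ Z} → K), (∀ g ∈ eqsC Z c, aeval z g = 0) ↔
  (∀ i, eval (Fin.cons 1 fun a => z (Sum.inl a) : Fin (n + 1) → K) (upT K (frmT c) i) = 0 ↔
    i ∈ Z) ∧ ∀ i : {i // i ∉ Z}, z (Sum.inr i) =
    (eval (Fin.cons 1 fun a => z (Sum.inl a) : Fin (n + 1) → K) (upT K (frmT c) i.1))⁻¹

/-- DZT: degrees, regularity and constants in terms of `x` -/
def T_DZT : Prop := ∀ (k K : Type) [Field k] [IsAlgClosed k] [CharZero k] [Field K] [Algebra k K]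
  [Algebra.EssFiniteType k K], Algebra.trdeg k K = 1 → ∀ (n : ℕ) (ι : Type) [Fintype ι]
  [DecidableEq ι]
  (e : ι → ℕ) (Z : Finset ι) (c : (Σ i, Mon (n + 1) (e i + 1)) → k)
  (z : Fin n ⊕ {i // i ∉ Z} → K), (∀ g ∈ eqsC Z c, aeval z g = 0) →
  (∀ v : DV k K, (∀ j, 0 ≤ v.ord (z j)) →
    poleOrder v (Fin.cons 1 fun a => z (Sum.inl a) : Fin (n + 1) → K) = 0 ∧ ∀ i, i ∉ Z →
    v.ord (eval (Fin.cons 1 fun a => z (Sum.inl a) : Fin (n + 1) → K) (upT K (frmT c) i)) = 0) ∧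
  deg k z ≤ (1 + ∑ i, (e i + 1)) * deg k (Fin.cons 1 fun a => z (Sum.inl a) : Fin (n + 1) → K) ∧
  ((∃ j, z j ∉ Set.range (algebraMap k K)) →
    ∃ j, (Fin.cons 1 fun a => z (Sum.inl a) : Fin (n + 1) → K) j ∉ Set.range (algebraMap k K))

/-- FIC: Q1 for very general affine complete intersections minus hypersurfaces -/
def T_FIC : Prop := ∀ (n : ℕ) (ι : Type) [Fintype ι] [DecidableEq ι] (e : ι → ℕ) (Z : Finset ι), Z.card < n →
  3 * n ≤ 2 * ∑ i, (e i + 1) + Z.card → ∃ C : ℕ, ∀ (k : Type) [Field k]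
  [IsAlgClosed k] [CharZero k] (c : (Σ i, Mon (n + 1) (e i + 1)) → k),
  AlgebraicIndependent ℚ c →
  DegreeBoundOff k (eqsC Z c) (excC Z c) (fun χ => C * χ) ∧
  ∃ Ψ : MvPolynomial (Fin n) k,
    (∃ z : Fin n ⊕ {i // i ∉ Z} → k, (∀ g ∈ eqsC Z c, aeval z g = 0) ∧
      eval (fun a => z (Sum.inl a)) Ψ ≠ 0) ∧
    ∀ (K : Type) [Field K] [Algebra k K] (z : Fin n ⊕ {i // i ∉ Z} → K),
      (∀ g ∈ eqsC Z c, aeval z g = 0) → excC Z c K z → aeval (fun a => z (Sum.inl a)) Ψ = 0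

end Pool.Agent.H17.CI
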