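import Pool.Agent.H17.CI.TargetsC
import Pool.Agent.H17.CI.TargetsF
import Pool.Agent.H17.CI.DT
import Pool.Agent.H17.VG.AL
import Pool.Agent.H17.VG.TargetsE

/-!
# MP_70ba79_ag: the main theorem in coordinates (rows ALT, MNT of the board `ci_modules`)
-/

set_option autoImplicit false

namespace Pool.Agent.H17.CI

open MvPolynomial SC Pool.Agent.H27.LV Pool.Agent.H17.VG

lemma algInd_map {k K : Type} [Field k] [CharZero k] [Field K] [CharZero K] [Algebra k K]
    {κ : Type} (c : κ → k) (hc : AlgebraicIndependent ℚ c) :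
    AlgebraicIndependent ℚ fun M => algebraMap k K (c M) := by
  have h1 := hc.map' (f := (algebraMap k K).toRatAlgHom) (algebraMap k K).injective
  exact h1

theorem pf_ALT (hST : T_STT) (hSM : T_SMT) (hD : T_DT) (hG : T_GT) (hNC : T_NC) (hEV : T_EVT) :
    T_ALT := by
  intro k _ _ _ n ι _ e Z c hZ hne hc K _ _ _ htr D hD0 x hx1 hx hon hline S hS
  have hn1 : n + 1 ≤ ∑ i, (e i + 1) := by omega
  obtain ⟨R, hR⟩ := hG k n ι e c hn1 hc
  obtain ⟨D', hD', hsys, hrat⟩ := hR K htr D hD0
  have hcK : CharZero K := charZero_of_injective_algebraMap (algebraMap k K).injective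
  have hx0 : x ≠ 0 := by
    intro h0
    rw [h0] at hx1
    exact zero_ne_one hx1
  have hPt : Pt Z (upT K (frmT c)) D' x := by
    refine ⟨hx1, hon, ?_, ?_⟩
    · have h1 := hNC K n ι e (fun M => algebraMap k K (c M)) (algInd_map c hc) x hx0 Z (by
        intro i hi
        rw [← upT_frmT]
        exact (hon i).2 hi)
      rw [← upT_frmT] at h1
      exact h1
    · have : (fun i => D' (x i)) = fun i => D (x i) := funext fun i => hD' _
      rw [this]
      refine indep_D D x 0 hx1 ?_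
      obtain ⟨j, hj⟩ := hx
      exact ⟨j, fun h0 => hj (ker k K htr D hD0 _ h0)⟩
  obtain ⟨Q, hQ⟩ := hST R k K n ι e (upT K (frmT c)) D' Z x hZ hne hsys hPt hline
  obtain ⟨-, -, -, hfr, hle⟩ := hEV R K n ι e (upT K (frmT c)) D' Z x hsys hPt
  have hle' : Module.finrank K (UtT R (upT K (frmT c)) x
      (PQT x fun j => upT K (frmT (Q j)))) + Z.card ≤ n + 1 := by
    have h1 := hle (PQT x fun j => upT K (frmT (Q j))) (by
      intro G hG i _
      unfold PQT at hG
      induction hG using Submodule.span_induction with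
      | mem G hG =>
        obtain ⟨ξ, j, hξ, rfl⟩ := hG
        have h2 : eval x (lin ξ) = ∑ i, ξ i * x i := by
          unfold lin
          simp
        show eval x (lin ξ * _) = 0
        rw [map_mul, h2, hξ, zero_mul]
      | zero => simp
      | add a b _ _ ha hb =>
        rw [Pi.add_apply, map_add, ha, hb, add_zero]
      | smul a b _ hb =>
        rw [Pi.smul_apply, smul_eval, hb, mul_zero])
    have h3 := Submodule.finrank_mono h1
    omega
  have hd := hD R k K htr n (∑ i, (e i + 1) - n - 1) ι e (frmT c)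
    (fun i => frm_homog fun M => c ⟨i, M⟩) (hNC k n ι e c hc) D D' hD0 hD' hsys hrat Z x hPt S hS Q
  rcases Nat.lt_or_ge n (Module.finrank K (UtT R (upT K (frmT c)) x
    (PQT x fun j => upT K (frmT (Q j)))) + Z.card) with h | h
  · left
    have h1 := hd.1 (by omega)
    have h2 : (((∑ i, (e i + 1) : ℕ) : ℤ) - n - (∑ i, (e i + 1) - n - 1 : ℕ)) = 1 := by omega
    rw [h2, one_mul] at h1
    exact h1
  · right
    have h0 : Module.finrank K (UtT R (upT K (frmT c)) x
        (PQT x fun j => upT K (frmT (Q j)))) + Z.card = n := by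
      omega
    obtain ⟨Q', ξ, τ, l, h1, h2, h3⟩ := hSM R k K n (∑ i, (e i + 1) - n - 1) ι e
      (upT K (frmT c)) D' Z x hsys hPt Q h0
    obtain ⟨y, a, b, h4, h5, h6, h8⟩ := hd.2 h0 Q' ξ τ l h1 h2 h3
    refine ⟨y, a, b, h4, h5, h6, ?_⟩
    have h7 : (((∑ i, (e i + 1) : ℕ) : ℤ) - n - ((∑ i, (e i + 1) - n - 1 : ℕ) + 1)) = 0 := by
      omega
    rw [h7, zero_mul, add_zero] at h8
    exact h8

theorem pf_MNT (hAL : T_ALT) (hE : T_E) (hROT : T_ROT) (hTR : T_TRT) : T_MNT := by
  classical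
  intro n ι _ e Z hZ hne
  choose C1 hC1 using hROT n
  obtain ⟨C2, hC2⟩ := hE n (1 + ∑ i ∈ Finset.univ \ Z, (e i + 1))
  refine ⟨1 + ∑ i, C1 (e i + 1) + 2 * C2, ?_⟩
  intro k _ _ _ c hc K _ _ _ htr D hD x hx1 hx hon hline S hS
  have hcK : CharZero K := charZero_of_injective_algebraMap (algebraMap k K).injective
  have hs0 : (0 : ℤ) ≤ ((∑ i, C1 (e i + 1) : ℕ) : ℤ) := Int.natCast_nonneg _
  have hC0 : (0 : ℤ) ≤ C2 := Int.natCast_nonneg C2
  rcases hAL k n ι e Z c hZ hne hc K htr D hD x hx1 hx hon hline S hS with h | h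
  · have h0 : (0 : ℤ) ≤ deg k x := Int.natCast_nonneg _
    have h1 : (0 : ℤ) ≤ canDeg D + S.card := h0.trans h
    rw [Nat.cast_add, Nat.cast_add, Nat.cast_mul]
    push_cast only [Nat.cast_one, Nat.cast_ofNat]
    nlinarith [mul_nonneg hs0 h1, mul_nonneg hC0 h1]
  · obtain ⟨y, a, b, hy, hy0, h2, h3⟩ := h
    have h4 : (0 : ℤ) ≤ hln k x y a b := Int.natCast_nonneg _
    have h5 : (0 : ℤ) ≤ canDeg D + S.card := h4.trans h3
    have hxy : Indep x y := by
      unfold Indep
      rw [LinearIndependent.pair_iff]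
      intro s t hst
      have h6 := congrFun hst 0
      simp only [Pi.add_apply, Pi.smul_apply, hx1, hy, smul_eq_mul, mul_one, mul_zero,
        add_zero, Pi.zero_apply] at h6
      rw [h6, zero_smul, zero_add] at hst
      exact ⟨h6, (smul_eq_zero.1 hst).resolve_right hy0⟩
    rcases hTR K n ι e Z (upT K (frmT c)) x y
      (fun i => (frm_homog fun M => c ⟨i, M⟩).map _) hx1 hy hy0 hon (hline y hy hy0) with h6 | h6
    · obtain ⟨i, hi, hres⟩ := h6
      have h7 := hC1 (e i + 1) k K htr (frmT c i) (frm_homog fun M => c ⟨i, M⟩) x y a b hx1 hy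
        hy0 h2 ((hon i).2 hi) hres
      have h8 : ((C1 (e i + 1) : ℕ) : ℤ) ≤ ((∑ i, C1 (e i + 1) : ℕ) : ℤ) := by
        exact_mod_cast Finset.single_le_sum (f := fun i => C1 (e i + 1))
          (fun _ _ => Nat.zero_le _) (Finset.mem_univ i)
      rw [Nat.cast_add, Nat.cast_add, Nat.cast_mul]
      push_cast only [Nat.cast_one, Nat.cast_ofNat]
      have h9 : (0 : ℤ) ≤ C1 (e i + 1) := Int.natCast_nonneg _
      nlinarith [mul_nonneg hs0 h5, mul_nonneg hC0 h5, mul_le_mul h8 h3 h4 hs0]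
    · have hup : up K (X 0 * ∏ i ∈ Finset.univ \ Z, frmT c i) =
          X 0 * ∏ i ∈ Finset.univ \ Z, upT K (frmT c) i := by
        unfold upT up
        rw [map_mul, map_X, map_prod]
      have hhom : (X 0 * ∏ i ∈ Finset.univ \ Z, frmT c i).IsHomogeneous
          (1 + ∑ i ∈ Finset.univ \ Z, (e i + 1)) :=
        (isHomogeneous_X k 0).mul (IsHomogeneous.prod _ _ _
          fun i _ => frm_homog fun M => c ⟨i, M⟩)
      have hne0 : ∀ i ∈ Finset.univ \ Z, eval x (upT K (frmT c) i) ≠ 0 := by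
        intro i hi h0
        exact (Finset.mem_sdiff.1 hi).2 ((hon i).1 h0)
      have hev : eval x (up K (X 0 * ∏ i ∈ Finset.univ \ Z, frmT c i)) =
          ∏ i ∈ Finset.univ \ Z, eval x (upT K (frmT c) i) := by
        rw [hup, map_mul, eval_X, hx1, one_mul, map_prod]
      have hF : eval x (up K (X 0 * ∏ i ∈ Finset.univ \ Z, frmT c i)) ≠ 0 := by
        rw [hev]
        exact Finset.prod_ne_zero_iff.2 hne0
      have h7 := hC2 k K htr D hD _ hhom x y 0 a b hx1 hxy h2 hF (by rw [hup]; exact h6) S (by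
        intro v hv
        rw [hev, v.ord_prod _ _ hne0, (hS v hv).1]
        rw [Finset.sum_eq_zero fun i hi => (hS v hv).2 i (Finset.mem_sdiff.1 hi).2]
        simp) h5
      rw [Nat.cast_add, Nat.cast_add, Nat.cast_mul]
      push_cast only [Nat.cast_one, Nat.cast_ofNat]
      nlinarith [mul_nonneg hs0 h5, mul_nonneg hC0 h5, mul_le_mul_of_nonneg_left h3 hC0]

end Pool.Agent.H17.CI
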