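import Pool.Agent.H17.CI.TargetsG

/-!
# MP_70ba79_ag: the small field `R`
-/

set_option autoImplicit false

namespace Pool.Agent.H17.CI

open MvPolynomial SC Pool.Agent.H27.LV Pool.Agent.H17.VG

theorem pf_FDT : T_FDT := by
  intro k _ _ κ c hc P
  classical
  obtain ⟨s0, hs0, hb⟩ := exists_isTranscendenceBasis_superset hc.to_subtype_range
  have hinj : Function.Injective c := hc.injective
  let x : s0 → k := Subtype.val
  let S : Set s0 := {i | ¬ ∃ M, P M ∧ c M = i}
  have hx : AlgebraicIndependent ℚ x := hb.1
  have hR := (AlgebraicIndependent.iff_adjoin_image (x := x) S).1 hx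
  refine ⟨IntermediateField.adjoin ℚ (x '' S), ?_, ?_, ?_⟩
  · intro M hM
    apply IntermediateField.subset_adjoin
    refine ⟨⟨c M, hs0 ⟨M, rfl⟩⟩, ?_, rfl⟩
    rintro ⟨M', hM', he⟩
    have : M' = M := hinj he
    subst this
    exact hM hM'
  · rw [IntermediateField.algebraicIndependent_adjoin_iff]
    have h1 := hR.2
    let φ : {M : κ // P M} → (Sᶜ : Set s0) := fun M =>
      ⟨⟨c M.1, hs0 ⟨M.1, rfl⟩⟩, fun h => h ⟨M.1, M.2, rfl⟩⟩
    have hφ : Function.Injective φ := by
      intro a b hab
      have h2 : c a.1 = c b.1 := congrArg (fun z : (Sᶜ : Set s0) => (z.1 : k)) hab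
      exact Subtype.ext (hinj h2)
    exact h1.comp φ hφ
  · have hal : Algebra.IsAlgebraic (Algebra.adjoin ℚ (Set.range x)) k := hb.isAlgebraic
    let L := IntermediateField.adjoin (IntermediateField.adjoin ℚ (x '' S))
      (Set.range fun M : {M : κ // P M} => c M)
    have hle : ∀ a : Algebra.adjoin ℚ (Set.range x), (a : k) ∈ L := by
      intro a
      have h1 : Algebra.adjoin ℚ (Set.range x) ≤ (L.restrictScalars ℚ).toSubalgebra := by
        rw [Algebra.adjoin_le_iff]
        rintro _ ⟨i, rfl⟩
        by_cases hi : i ∈ S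
        · have h2 : x i ∈ IntermediateField.adjoin ℚ (x '' S) :=
            IntermediateField.subset_adjoin _ _ ⟨i, hi, rfl⟩
          exact L.algebraMap_mem ⟨x i, h2⟩
        · have h2 : ∃ M, P M ∧ c M = i := not_not.1 hi
          obtain ⟨M, hM, he⟩ := h2
          have h3 : c M ∈ L := IntermediateField.subset_adjoin _ _ ⟨⟨M, hM⟩, rfl⟩
          have h4 : x i ∈ L := by
            have : x i = c M := he.symm
            rw [this]
            exact h3
          exact h4
      exact h1 a.2
    let f : Algebra.adjoin ℚ (Set.range x) →+* L :=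
      RingHom.codRestrict (Algebra.adjoin ℚ (Set.range x)).val.toRingHom L.toSubfield hle
    exact Algebra.IsAlgebraic.ringHom_of_comp_eq (R := Algebra.adjoin ℚ (Set.range x)) (A := k)
      (S := L) (B := k) f (RingHom.id k)
      (by
        intro a b hab
        apply Subtype.ext
        have := congrArg (fun z : L => (z : k)) hab
        exact this)
      Function.surjective_id (by ext a; rfl)

end Pool.Agent.H17.CI
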