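import Pool.Agent.H17.CI.TargetsF
import Pool.Agent.H17.CI.TargetsX

/-!
# MP_70ba79_ag: the final statement (row FIC of the board `ci_modules`)
-/

set_option autoImplicit false

namespace Pool.Agent.H17.CI

open MvPolynomial SC Pool.Agent.H27.LV Pool.Agent.H17.VG

theorem pf_FIC (hMN : T_MNT) (hPT : T_PTT) (hDZ : T_DZT) (hXF : T_XFT) : T_FIC := by
  intro n ι _ _ e Z hZ hne
  obtain ⟨C, hC⟩ := hMN n ι e Z hZ hne
  refine ⟨(1 + ∑ i, (e i + 1)) * C, ?_⟩
  intro k _ _ _ c hc
  refine ⟨?_, ?_⟩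
  · intro K _ _ _ htr S z hz hreg hnc hexc D hD
    obtain ⟨h1, h2, h3⟩ := hDZ k K htr n ι e Z c z hz
    have hon := (hPT k K n ι e Z c z).1 hz
    have h4 := hC k c hc K htr D hD _ rfl (h3 hnc) hon.1 (by
      intro y hy0 hy hex
      apply hexc
      refine ⟨fun a => y a.succ, ?_, ?_⟩
      · intro h0
        apply hy
        funext j
        refine Fin.cases hy0 (fun a => ?_) j
        exact congrFun h0 a
      · have h5 : (Fin.cons 0 (fun a => y a.succ) : Fin (n + 1) → K) = y := by
          funext j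
          refine Fin.cases ?_ (fun a => ?_) j
          · rw [Fin.cons_zero, hy0]
          · rw [Fin.cons_succ]
        rw [h5]
        exact hex) S (fun v hv => h1 v fun j => hreg v hv j)
    have h5 : ((deg k z : ℕ) : ℤ) ≤ ((1 + ∑ i, (e i + 1)) * deg k
        (Fin.cons 1 fun a => z (Sum.inl a) : Fin (n + 1) → K) : ℕ) := Nat.cast_le.2 h2
    refine h5.trans ?_
    show _ ≤ (((1 + ∑ i, (e i + 1)) * C : ℕ) : ℤ) * (canDeg D + S.card)
    rw [Nat.cast_mul, Nat.cast_mul, mul_assoc]
    exact mul_le_mul_of_nonneg_left h4 (Int.natCast_nonneg _)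
  · obtain ⟨Ψ, ⟨x, hx, hΨ⟩, hall⟩ := hXF k n ι e Z c hZ.le (by omega) hc
    refine ⟨Ψ, ?_, ?_⟩
    · have hup : ∀ i, upT k (frmT c) i = frmT c i := by
        intro i
        unfold upT up
        rw [Algebra.algebraMap_self, MvPolynomial.map_id]
      refine ⟨Sum.elim x fun i => (eval (Fin.cons 1 x : Fin (n + 1) → k) (frmT c i.1))⁻¹, ?_, ?_⟩
      · refine (hPT k k n ι e Z c _).2 ⟨?_, ?_⟩
        · intro i
          rw [hup i]
          exact hx i
        · intro i
          rw [hup i.1]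
          rfl
      · exact hΨ
    · rintro K _ _ z hz ⟨y, hy, hex⟩
      have hon := (hPT k K n ι e Z c z).1 hz
      have hy' : (Fin.cons 0 y : Fin (n + 1) → K) ≠ 0 := by
        intro h0
        apply hy
        funext a
        have := congrFun h0 a.succ
        rw [Fin.cons_succ] at this
        exact this
      have h1 : (Fin.cons 1 (fun a => z (Sum.inl a)) : Fin (n + 1) → K) 0 = 1 := Fin.cons_zero _ _
      have h2 : (Fin.cons 0 y : Fin (n + 1) → K) 0 = 0 := Fin.cons_zero _ _
      have h3 := hall K (Fin.cons 1 (fun a => z (Sum.inl a)) : Fin (n + 1) → K)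
        (Fin.cons 0 y) h1 h2 hy' hon.1 hex
      simp only [Fin.cons_succ] at h3
      exact h3

end Pool.Agent.H17.CI
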