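import Pool.Agent.H17.CI.TargetsX
import Pool.Agent.H17.VG.TargetsG

/-!
# MP_70ba79_ag: derivations with given values on algebraically independent elements
-/

set_option autoImplicit false

namespace Pool.Agent.H17.CI

open MvPolynomial SC Pool.Agent.H27.LV Pool.Agent.H17.VG

theorem pf_XDD (hG1 : T_G1) : T_XDD := by
  intro k L κ β _ _ _ _ c x hc hx g
  classical
  have : CharZero L := charZero_of_injective_algebraMap (algebraMap k L).injective
  obtain ⟨t, hst, ht⟩ := exists_isTranscendenceBasis_superset hc.to_subtype_range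
  obtain ⟨u, hsu, hu⟩ := exists_isTranscendenceBasis_superset hx.to_subtype_range
  have hci : Function.Injective c := hc.injective
  have hb := ht.sumElim_comp hu
  obtain ⟨D, hD⟩ := hG1 ℚ L _ _ hb (Sum.elim (fun _ => 0)
    (fun r : t => if h : ∃ M, c M = r.1 then g h.choose else 0))
  refine ⟨D.restrictScalars ℤ, fun M => ?_, fun b => ?_⟩
  · have h1 := hD (Sum.inr ⟨c M, hst ⟨M, rfl⟩⟩)
    have hex : ∃ M', c M' = c M := ⟨M, rfl⟩
    have h2 : D (algebraMap k L (c M)) = if h : ∃ M', c M' = c M then g h.choose else 0 := h1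
    rw [dif_pos hex] at h2
    have h3 : hex.choose = M := hci hex.choose_spec
    rw [h3] at h2
    exact h2
  · exact hD (Sum.inl ⟨x b, hsu ⟨b, rfl⟩⟩)

end Pool.Agent.H17.CI
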