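import Pool.Agent.H17.VG.All
import Pool.Agent.H65.CI.BIT
import Pool.Agent.H66.CI.BT
import Pool.Agent.H51.CI.DBT
import Pool.Agent.H64.CI.DXT
import Pool.Agent.H77.CI.DGT
import Pool.Agent.H52.CI.DZT
import Pool.Agent.H77.CI.ETT
import Pool.Agent.H65.CI.EVT
import Pool.Agent.H64.CI.FET
import Pool.Agent.H59.CI.IQT
import Pool.Agent.H3.CI.NAT
import Pool.Agent.H35.CI.NBT
import Pool.Agent.H45.CI.NZT
import Pool.Agent.H56.CI.PST
import Pool.Agent.H66.CI.RLT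
import Pool.Agent.H52.CI.ROW
import Pool.Agent.H33.CI.SMT
import Pool.Agent.H65.CI.STT
import Pool.Agent.H66.CI.TPT
import Pool.Agent.H49.CI.XFT
import Pool.Agent.H49.CI.XMT
import Pool.Agent.H51.CI.NC
import Pool.Agent.H17.CI.FIC
import Pool.Agent.H17.CI.ALT
import Pool.Agent.H17.CI.DT
import Pool.Agent.H17.CI.GT
import Pool.Agent.H59.CI.KDT
import Pool.Agent.H3.CI.BST
import Pool.Agent.H42.CI.CT
import Pool.Agent.H64.CI.DET
import Pool.Agent.H6.CI.GPT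
import Pool.Agent.H1.CI.GRT
import Pool.Agent.H45.CI.HA
import Pool.Agent.H77.CI.KYT
import Pool.Agent.H45.CI.NST
import Pool.Agent.H99.CI.PTT
import Pool.Agent.H52.CI.ROT
import Pool.Agent.H99.CI.SU3
import Pool.Agent.H77.CI.SY
import Pool.Agent.H1.CI.TRT
import Pool.Agent.H49.CI.XEL
import Pool.Agent.H33.CI.XPO
import Pool.Agent.H33.CI.IMT
import Pool.Agent.H34.CI.JYT
import Pool.Agent.H17.CI.FDT
import Pool.Agent.H17.CI.XDD

/-!
# MP_70ba79_ag: very general affine log complete intersections, assembly of all modules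
-/

set_option autoImplicit false

namespace Pool.Agent.H17.CI

open Pool.Agent.H17.VG

/-- the exponential main lemma for lines (board `vgh_modules`) -/
theorem e_all : T_E := by
  have hLED := Pool.Agent.H22.VGH.pf_LED
  have hCDP := Pool.Agent.H30.VGH.pf_CDP
  have hMM1 : Pool.Agent.H30.VGH.T_MM1 := Pool.Agent.H65.VGH.pf_MM1 Pool.Agent.H30.VGH.pf_SYL hCDP
    (Pool.Agent.H22.VGH.pf_MLO Pool.Agent.H22.VGH.pf_EVA hLED hCDP)
    (Pool.Agent.H34.VGH.pf_MSM Pool.Agent.H27.LV.pfm Pool.Agent.H27.LV.tDFI)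
    (Pool.Agent.H1.VGH.pf_DG3 hLED) (Pool.Agent.H1.VGH.pf_RTB hLED)
    (Pool.Agent.H22.VGH.pf_RIC hCDP) Pool.Agent.H22.VGH.pf_JQN Pool.Agent.H22.VGH.pf_JQB
    Pool.Agent.H27.LV.dor Pool.Agent.H27.LV.ker
  have hMM : Pool.Agent.H30.VGH.T_MM := Pool.Agent.H34.VGH.pf_MM Pool.Agent.H27.LV.pfm hMM1
    Pool.Agent.H22.VGH.pf_GAU Pool.Agent.H22.VGH.pf_EVA Pool.Agent.H65.VGH.pf_RAD
  exact Pool.Agent.H30.VGH.gle (Pool.Agent.H30.VGH.pf_LIN hMM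
    Pool.Agent.H22.VGH.pf_TWI Pool.Agent.H65.VGH.pf_TWP)

/-- the main theorem, all modules of the boards `ci_modules` and `vgh_modules` together -/
theorem fic_all : T_FIC := by
  have hOP : T_OP := Pool.Agent.H97.VG.op
  have hRS : T_RS := Pool.Agent.H52.VG.rs
  have hRO : T_RO := Pool.Agent.H52.VG.ro
  have hIL : T_IL := Pool.Agent.H52.VG.il
  have hLF : T_LF := Pool.Agent.H52.VG.lf
  have hIP : T_IP := Pool.Agent.H77.VG.ip
  have hEV : T_EV := Pool.Agent.H97.VG.ev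
  have hLL : T_LL := Pool.Agent.H17.VG.ll Pool.Agent.H30.VG.d0
  have hG1 : T_G1 := Pool.Agent.H66.VG.g1
  have hG2 : T_G2 := Pool.Agent.H17.VG.G2 hG1
  have hSY : T_SY := Pool.Agent.H77.CI.pf_SY
  have hWDT : Pool.Agent.H17.CI.T_WDT := Pool.Agent.H77.CI.pf_WDT
  have hEVT : T_EVT := Pool.Agent.H65.CI.pf_EVT hEV hRS
  have hSUT : T_SUT := Pool.Agent.H65.CI.pf_SUT hEV hRS
  have hXDD : T_XDD := pf_XDD hG1
  have hIMT : T_IMT := Pool.Agent.H33.CI.pf_IMT hOP hRS hRO hLF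
  have hJYT : T_JYT := Pool.Agent.H34.CI.pf_JYT hRS hLF
  have hKYT : T_KYT := Pool.Agent.H77.CI.pf_KYT hRS
  have hPST : T_PST := Pool.Agent.H56.CI.pf_PST hOP hRS hIL hEVT hSUT
  have hIQT : T_IQT := Pool.Agent.H59.CI.pf_IQT hOP hRO
  have hETT : T_ETT := Pool.Agent.H77.CI.pf_ETT hRS hKYT hPST hIMT
  have hRLT : T_RLT := Pool.Agent.H66.CI.pf_RLT hRS Pool.Agent.H97.VG.re Pool.Agent.H97.VG.dc
    hLF hETT hPST hIQT hJYT
  have hDGT : T_DGT := Pool.Agent.H77.CI.pf_DGT hRS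
  have hBT : T_BT := Pool.Agent.H66.CI.pf_BT hRS hJYT hRLT hDGT hPST
  have hCT : T_CT := Pool.Agent.H42.CI.pf_CT
  have hBIT : T_BIT := Pool.Agent.H65.CI.pf_BIT hWDT
  have hTPT : T_TPT := Pool.Agent.H66.CI.pf_TPT hSY hEVT hSUT hIP
  have hSTT : T_STT := Pool.Agent.H65.CI.pf_STT hBT hCT KP hBIT hTPT hEVT
  have hSMT : T_SMT := Pool.Agent.H33.CI.pf_SMT hTPT hEVT hSY hWDT
  have hDBT : T_DBT := Pool.Agent.H51.CI.pf_DBT Pool.Agent.H1.CI.pf_GRT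
    (Pool.Agent.H52.CI.pf_ROW hLL hEV) Pool.Agent.H64.CI.pf_DET
  have hDT : T_DT := pf_DT hDBT Pool.Agent.H99.CI.pf_SU3
    (Pool.Agent.H3.CI.pf_NAT hSY hWDT hEVT) (Pool.Agent.H35.CI.pf_NBT hSY hWDT hEVT) hWDT hOP
  have hGT : T_GT := pf_GT (Pool.Agent.H64.CI.pf_FET Pool.Agent.H45.CI.pf_HA)
    Pool.Agent.H3.CI.pf_BST pf_FDT (Pool.Agent.H64.CI.pf_DXT hG1) Pool.Agent.H59.CI.pf_KDT
    Pool.Agent.H97.VG.cd hOP
  have hNC : T_NC := Pool.Agent.H51.CI.pf_NC hG2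
  have hALT : T_ALT := pf_ALT hSTT hSMT hDT hGT hNC hEVT
  have hMNT : T_MNT := pf_MNT hALT e_all Pool.Agent.H52.CI.pf_ROT Pool.Agent.H1.CI.pf_TRT
  have hPTT : T_PTT := Pool.Agent.H99.CI.pf_PTT
  have hDZT : T_DZT := Pool.Agent.H52.CI.pf_DZT hPTT
  have hXFT : T_XFT := Pool.Agent.H49.CI.pf_XFT Pool.Agent.H6.CI.pf_GPT
    (Pool.Agent.H45.CI.pf_NZT hXDD) (Pool.Agent.H49.CI.pf_XMT hXDD) Pool.Agent.H49.CI.pf_XEL
    Pool.Agent.H33.CI.pf_XPO Pool.Agent.H45.CI.pf_NST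
  exact pf_FIC hMNT hPTT hDZT hXFT

end Pool.Agent.H17.CI
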