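import Pool.Agent.H17.VG.TargetsC
import Pool.Agent.H17.VG.TargetsD
import Pool.Agent.H17.VG.TargetsF

/-!
# MP_70ba79_ag: very general affine complete intersections minus hypersurfaces

Common definitions of the modules of the board `ci_modules`. `F i`, `i` in a finite set `ι`, are
forms of degrees `e i + 1` in `n + 1` variables over `K`; `X 0 = 0` is the hyperplane at infinity.
The variety `X` in affine space is given by `F i = 0` for `i` in `Z` and `F i` invertible for `i`
not in `Z`. Everything is as in `Pool/Agent/H17/VG` (the case of one form, `Z` empty, no hyperplane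
at infinity); operators preserve the hyperplane at infinity, and symbols are families of forms,
modulo multiples of the `F i`.
-/

set_option autoImplicit false

namespace Pool.Agent.H17.CI

open MvPolynomial SC Pool.Agent.H27.LV Pool.Agent.H17.VG

section Op

variable {R K : Type} [Field R] [Field K] [Algebra R K] {n : ℕ} {ι : Type}

/-- families of polynomials -/
abbrev Tup (ι K : Type) [Field K] (n : ℕ) : Type := ι → MvPolynomial (Fin (n + 1)) K

/-- the operator preserves the hyperplane at infinity -/
def Aff (τ : Op R K n) : Prop := ∀ j, τ.2 0 j = 0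

/-- the operator `τ` with the scalings `l` has symbol `G` -/
def Sym (F : Tup ι K n) (τ : Op R K n) (l : ι → K) (G : Tup ι K n) : Prop :=
  Aff τ ∧ ∀ i, opF τ (F i) + C (l i) * F i = G i

/-- `F` with its operators: all families of forms are symbols, and the only operators with symbol
zero are the multiples of `(D, 0)` -/
structure SysT (e : ι → ℕ) (F : Tup ι K n) (D : Derivation R K K) : Prop where
  homog : ∀ i, (F i).IsHomogeneous (e i + 1)
  base : ∀ i, cD D (F i) = 0
  surj : ∀ G : Tup ι K n, (∀ i, (G i).IsHomogeneous (e i + 1)) →
    ∃ (τ : Op R K n) (l : ι → K), Sym F τ l G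
  ker : ∀ (τ : Op R K n) (l : ι → K), Sym F τ l 0 → τ.2 = 0 ∧ l = 0 ∧ ∃ c : K, τ.1 = c • D

/-- `x` is a point of the variety, not constant (with respect to `D`), where the equations have
independent gradients -/
structure Pt (Z : Finset ι) (F : Tup ι K n) (D : Derivation R K K) (x : Fin (n + 1) → K) :
    Prop where
  one : x 0 = 1
  on : ∀ i, eval x (F i) = 0 ↔ i ∈ Z
  grad : LinearIndependent K fun i : Z => fun a : Fin n => eval x (pderiv a.succ (F i))
  dx : Indep x (fun i => D (x i))

/-- velocities `opV τ x` of the operators with symbol in `W`, and `x` itself -/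
noncomputable def UtT (R : Type) [Field R] [Algebra R K] (F : Tup ι K n)
    (x : Fin (n + 1) → K) (W : Submodule K (Tup ι K n)) :
    Submodule K (Fin (n + 1) → K) :=
  Submodule.span K ({w | ∃ (τ : Op R K n) (l : ι → K), ∃ G ∈ W, Sym F τ l G ∧ w = opV τ x} ∪ {x})

/-- families of forms of degrees `e i + 1` which vanish on the line through `x` and `y` -/
noncomputable def IlT (e : ι → ℕ) (x y : Fin (n + 1) → K) : Submodule K (Tup ι K n) :=
  Submodule.pi Set.univ fun i => Il (e i) x y

/-- products of the families `Q j` and the linear forms which vanish at `x` -/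
noncomputable def PQT {κ : Type} (x : Fin (n + 1) → K) (Q : κ → Tup ι K n) :
    Submodule K (Tup ι K n) :=
  Submodule.span K {G | ∃ (ξ : Fin (n + 1) → K) (j : κ), ∑ i, ξ i * x i = 0 ∧
    G = fun i => lin ξ * Q j i}

/-- tangent vectors: `∑ w_j ∂_j F_i (x) = 0` for `i` in `Z` -/
def TxT (Z : Finset ι) (F : Tup ι K n) (x : Fin (n + 1) → K) :
    Submodule K (Fin (n + 1) → K) where
  carrier := {w | ∀ i ∈ Z, ∑ j, w j * eval x (pderiv j (F i)) = 0}
  zero_mem' := by simp
  add_mem' := by
    intro a b ha hb i hi
    simp only [Pi.add_apply, add_mul, Finset.sum_add_distrib]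
    rw [ha i hi, hb i hi, add_zero]
  smul_mem' := by
    intro c a ha i hi
    simp only [Pi.smul_apply, smul_eq_mul, mul_assoc]
    rw [← Finset.mul_sum, ha i hi, mul_zero]

/-- Exceptional lines: the line through `x` in the direction `y` (`y 0 = 0`) is contained in
`F i = 0`, `i` in `Z`, and the product of the other `F i` has at most one zero on it (outside the
hyperplane at infinity). -/
def ExcL (Z : Finset ι) (F : Tup ι K n) (x y : Fin (n + 1) → K) : Prop :=
  (∀ i ∈ Z, res x y (F i) = 0) ∧ ∃ α : K, ∀ i, i ∉ Z → ∃ a : ℕ,
    res x y (F i) = Polynomial.C (eval x (F i)) * (1 + Polynomial.C α * Polynomial.X) ^ a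

/-- families `P` of polynomials, `P i` of degree at most `e i`, such that an operator whose symbol
restricts to `T P` has its velocity in `U` -/
noncomputable def YlT (R : Type) [Field R] [Algebra R K] (e : ι → ℕ) (F : Tup ι K n)
    (x y : Fin (n + 1) → K) (U : Submodule K (Fin (n + 1) → K)) :
    Submodule K (ι → Polynomial K) :=
  Submodule.span K {P | (∀ i, (P i).natDegree ≤ e i) ∧ ∃ (τ : Op R K n) (l : ι → K)
    (G : Tup ι K n), Sym F τ l G ∧ (∀ i, res x y (G i) = Polynomial.X * P i) ∧ opV τ x ∈ U}

/-- the family of forms with coefficients `c` -/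
noncomputable def frmT {e : ι → ℕ} (c : (Σ i, Mon (n + 1) (e i)) → K) : Tup ι K n :=
  fun i => frm fun M => c ⟨i, M⟩

end Op

section Rational

variable {R k K : Type} [Field R] [Field k] [Field K] [Algebra k K] [Algebra R K] {n : ℕ}
  {ι : Type}

/-- families over `k` as families over `K` -/
noncomputable def upT (K : Type) [Field K] [Algebra k K] (G : Tup ι k n) : Tup ι K n :=
  fun i => up K (G i)

/-- operators and scalings with constant coefficients -/
def RatT (k : Type) [Field k] [Algebra k K] (τ : Op R K n) (l : ι → K) : Prop :=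
  RatOp k τ ∧ ∀ i, ∃ b : k, l i = algebraMap k K b

/-- normal crossings: at every point of projective space the gradients (in the directions of the
affine space) of the forms which vanish there are independent -/
def NCr (F : Tup ι k n) : Prop := ∀ z : Fin (n + 1) → k, z ≠ 0 → ∀ A : Finset ι,
  (∀ i ∈ A, eval z (F i) = 0) →
  LinearIndependent k fun i : A => fun a : Fin n => eval z (pderiv a.succ (F i))

/-- minor of the matrix of the gradients -/
noncomputable def gJ {A : Finset ι} (F : Tup ι K n) (x : Fin (n + 1) → K) (J : A → Fin n) : K :=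
  letI := Classical.decEq ι
  (Matrix.of fun i i' : A => eval x (pderiv (J i').succ (F i))).det

/-- The matrix of the height inequality. Rows: affine coordinates, and one row for each of the
families `Q j`. Columns: for each `c` an operator `τ c` with symbol `X_(i c) Q_(j c)`, then the
derivative of `x`, then for each equation of the variety a unit vector. -/
noncomputable def bigA {κ : Type} {s : ℕ} {Z : Finset ι} (D : Derivation k K K)
    (x : Fin (n + 1) → K) (τ : κ → Op R K n) (i : κ → Fin (n + 1)) (j : κ → Fin s)
    (J : Z → Fin n) : Matrix (Fin n ⊕ Fin s) ((κ ⊕ Unit) ⊕ Z) K :=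
  Matrix.of fun r c => match r, c with
    | Sum.inl a, Sum.inl (Sum.inl c) => opV (τ c) x a.succ
    | Sum.inr b, Sum.inl (Sum.inl c) => if j c = b then x (i c) else 0
    | Sum.inl a, Sum.inl (Sum.inr _) => D (x a.succ)
    | Sum.inr _, Sum.inl (Sum.inr _) => 0
    | Sum.inl a, Sum.inr z => if J z = a then 1 else 0
    | Sum.inr _, Sum.inr _ => 0

end Rational

end Pool.Agent.H17.CI
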